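import Pool.Agent.Results.MP_b15c9e_ag.CurvesThroughPreperiodicPoints
import Pool.Agent.V1138.BO.Many
import Pool.Agent.V1138.BO.Eis

/-!
# MP_b15c9e_ag: Dynamical Mordell-Lang for one-parameter families of orbits with an étale preperiodic
member and parameters in a backward orbit

**Families.** Let `F_{t,0}, …, F_{t,N}` be forms of degree `d` in `N + 1` variables whose
coefficients are polynomials in `t` (`member F t`), let `x_0, …, x_N` be polynomials in `t`
(`start x t`). So `F_t` is a one-parameter family of rational self-maps of `ℙ^N` (for example of
endomorphisms, for example the constant family) and `x(t)` is a rational curve of starting points.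

**Étale preperiodic points.** A point `P` of the cone is called étale preperiodic for a system of
forms `F` if all iterates `F^n(P)` are different from zero, the point `[P]` of `ℙ^N` is preperiodic
and the determinant of the matrix of the partial derivatives of the `F_i` does not vanish at
`F^n(P)` for `n ≥ n₀` (that is, `[F]` is étale at the points of the cycle).

**Parameters.** Let `φ_1, …, φ_r` and `g` be polynomials with integral coefficients such that all the
composites `g ∘ φ_{i_1} ∘ … ∘ φ_{i_m}` are irreducible, and `deg g · deg φ_i ≥ 2` for all `i`. The
backward orbit of the roots of `g` is the set of the complex numbers `t` with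
`g (φ_{i_1} (… (φ_{i_m} (t)))) = 0` for some word `i_1 … i_m` (`InBackwardOrbit`). For `r = 1` and
`g = X - β` these are the iterated preimages of `β` under a polynomial map. The composites are
irreducible for example (theorem `Pool.Agent.V1138.BO.eisenstein`) if `g = X - β` and the `φ_i` are
monic polynomials of degree at least two which are powers of `X` modulo a prime number `p`, with
`p ∣ β` and `p ^ 2 ∤ φ_i (0) - β`. These parameters are algebraic numbers of unbounded degree
(the degree is `deg g` times the product of the degrees of the `φ_{i_k}`) and, for `deg φ_i ≥ 2`, of
bounded height. A rational number `α` is called wandering if for every `y` there are only finitely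
many words with `φ_{i_1} (… (φ_{i_m} (α))) = y` (for `r = 1`: `α` is not preperiodic).

**Theorem.** Let `α` be a wandering rational number such that `x(α)` is étale preperiodic
for `F_α`. Then the orbit of `x(t)` under `F_t` satisfies the Dynamical Mordell-Lang conjecture for
all but finitely many `t` in the backward orbit of the roots of `g` under the semigroup of the `φ_i`.

One étale preperiodic member is sufficient, and the degrees of the parameters are unbounded. The
conclusion (`DMLAt`) is: all iterates of `x(t)` are defined (different from zero), and for every
set `S` of polynomials in `N + 1` variables (for closed subsets of `ℙ^N`: a set of forms) the set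
of the `n` such that all members of `S` vanish at the `n`-th iterate is a finite union of
arithmetic progressions. The family `F_t` can be the family of the maps `φ` itself, or constant. The
starting file `CurvesThroughPreperiodicPoints` treats transcendental `t` and the `t` of degree at most
`δ`, for which `2 δ + 1` étale preperiodic members are needed.

The proof: if `t` is `p`-adically near to `α` for an embedding of `ℂ` into the algebraic closure
of `ℚ_p`, for which all data have good reduction, then the orbit of `x(t)` has the reduction of the
orbit of `x(α)`, so it is étale at `p`, and `p`-adic interpolation applies (starting file).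

**The arithmetic** (`Pool.Agent.V1138.BO`). If `α` is wandering then for all but finitely many words the
(homogenized) value at `α` of the minimal polynomial `g ∘ φ_{i_1} ∘ … ∘ φ_{i_m}` of the parameter
has a prime factor larger than a given number `D`. Up to powers of the denominator of `α` it is
`g_1 (y)` with `g_1 = g ∘ φ_{i_1}` and `y = φ_{i_2} (… (φ_{i_m} (α)))`, an `S`-integer, and by
the unit equation in the field generated by two roots of `g_1` there are only finitely many
`S`-integers `y` such that `g_1 (y)` is an `S`-unit.
-/

set_option autoImplicit false

open Polynomial Pool.Agent.H936R2 Pool.Agent.Y199.DM Pool.Agent.Y152.BD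

namespace Pool.Agent.Results.MP_b15c9e_ag.BackwardOrbits

open Pool.Agent.V1138.BO (cmp act)
open Pool.Agent.Results.MP_b15c9e_ag.CurvesThroughPreperiodicPoints (member start near)

variable {N : ℕ}

/-- `t` is in the backward orbit of the roots of `g` under the semigroup generated by the
polynomials `φ i`: `g (φ_{i_1} (… (φ_{i_m} (t)))) = 0` for some word `i_1 … i_m`. -/
def InBackwardOrbit {r : ℕ} (φ : Fin r → Polynomial ℤ) (g : Polynomial ℤ) (t : ℂ) : Prop :=
  ∃ w : List (Fin r), Polynomial.aeval (act φ w t) g = 0

/-- All composites `g ∘ φ_{i_1} ∘ … ∘ φ_{i_m}` are irreducible, and those with `m = 1` have degree at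
least two. -/
def IrreducibleComposites {r : ℕ} (φ : Fin r → Polynomial ℤ) (g : Polynomial ℤ) : Prop :=
  (∀ w : List (Fin r), Irreducible (cmp φ g w)) ∧ ∀ i, 2 ≤ g.natDegree * (φ i).natDegree

/-- Every number is the image of `α` for only finitely many words. -/
def Wandering {r : ℕ} (φ : Fin r → Polynomial ℤ) (α : ℚ) : Prop :=
  ∀ y : ℚ, {w : List (Fin r) | act φ w α = y}.Finite

/-- Dynamical Mordell-Lang for all but finitely many members with parameters in a backward orbit of
one-parameter families of orbits with an étale preperiodic member. -/
theorem result {d : ℕ} (F : Fin (N + 1) → MvPolynomial (Fin (N + 1)) ℂ[X])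
    (hF : ∀ i, (F i).IsHomogeneous d) (x : Fin (N + 1) → ℂ[X])
    (r : ℕ) (φ : Fin r → ℤ[X]) (g : ℤ[X]) (hφ : IrreducibleComposites φ g)
    (α : ℚ) (hα : Wandering φ α) (hα1 : EtalePreperiodic (member F α) (start x α)) :
    {t : ℂ | InBackwardOrbit φ g t ∧ ¬ DMLAt (member F t) (start x t)}.Finite := by
  classical
  obtain ⟨u, huK, hu⟩ := near F hF x α hα1
  obtain ⟨D, hD⟩ := emb_alg u
  refine (Pool.Agent.V1138.BO.finite_badB (D + α.den) (M := 1) (L := 1) le_rfl (fun _ => α) φ g
    hφ.2 hφ.1 (fun _ => hα)).subset ?_
  rintro t ⟨htδ, hbad⟩
  refine ⟨htδ, ?_⟩
  rintro ⟨f, hf, P, hP, hPt, hp⟩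
  apply hbad
  obtain ⟨p, hp, hpD, hdvd⟩ := hp 0
  have : Fact p.Prime := ⟨hp⟩
  have hden : ¬ p ∣ α.den := by
    intro h
    have := Nat.le_of_dvd α.den_pos h
    omega
  obtain ⟨τ, hτ, hτt⟩ := hD p (by omega) t P hP hPt α hden hdvd
  exact hu p τ hden hτ t hτt

end Pool.Agent.Results.MP_b15c9e_ag.BackwardOrbits
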