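import Pool.Agent.Results.MP_b15c9e_ag.CurvesThroughPreperiodicPoints
import Pool.Agent.V1138.SP.Many

/-!
# MP_b15c9e_ag: Dynamical Mordell-Lang for one-parameter families of orbits with preperiodic members
and parameters with sparse minimal polynomial

**Families.** Let `F_{t,0}, …, F_{t,N}` be forms of degree `d` in `N + 1` variables whose
coefficients are polynomials in `t` (`member F t`), let `x_0, …, x_N` be polynomials in `t`
(`start x t`). So `F_t` is a one-parameter family of rational self-maps of `ℙ^N` (for example of
endomorphisms, for example the constant family) and `x(t)` is a rational curve of starting points.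

**Étale preperiodic points.** A point `P` of the cone is called étale preperiodic for a system of
forms `F` if all iterates `F^n(P)` are different from zero, the point `[P]` of `ℙ^N` is preperiodic
and the determinant of the matrix of the partial derivatives of the `F_i` does not vanish at
`F^n(P)` for `n ≥ n₀` (that is, `[F]` is étale at the points of the cycle).

**Theorem.** Let `A` be a finite set of nonzero rational numbers such that `x(α)` is étale preperiodic
for `F_α` for all `α ∈ A`. If `A` has at least `6 s (s + 1) + 1` elements then the orbit of `x(t)`
under `F_t` satisfies the Dynamical Mordell-Lang conjecture for all but finitely many algebraic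
numbers `t` whose minimal polynomial (the irreducible polynomial with integral coefficients with the
root `t`) has at most `s + 1` terms.

The degree of `t` and the coefficients of the minimal polynomial are arbitrary; for `s = 2` the
parameters are all the roots of irreducible trinomials and binomials. The conclusion (`DMLAt`) is:
all iterates of `x(t)` are defined (different from zero), and for every
set `S` of polynomials in `N + 1` variables (for closed subsets of `ℙ^N`: a set of forms) the set
of the `n` such that all members of `S` vanish at the `n`-th iterate is a finite union of
arithmetic progressions. The starting file `CurvesThroughPreperiodicPoints` treats transcendental `t`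
and the `t` of degree at most `δ` (if `A` has `2 δ + 1` elements); these have minimal
polynomials with at most `δ + 1` terms.

The proof: if `t` is `p`-adically near to `α ∈ A` for an embedding of `ℂ` into the algebraic closure
of `ℚ_p`, for which all data have good reduction, then the orbit of `x(t)` has the reduction of the
orbit of `x(α)`, so it is étale at `p`, and `p`-adic interpolation applies (starting file). Such an
embedding exists for all but finitely many `t` by the following theorem (`Pool.Agent.V1138.SP`). Let
`α_1, …, α_C` be distinct positive rational numbers,
`C = 3 s (s + 1) + 1`, and `D` a number. For all but finitely many `t ≠ 0` whose minimal polynomial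
has `s + 1` terms its (homogenized) value at one of the `α_l` has a prime factor larger than `D`:
`t` is not `S`-integral relative to `α_1, …, α_C`. Here both the exponents and
the coefficients of the minimal polynomial vary. The proof works in a field of germs of sequences of
rational numbers, which is graded by the rates of growth of the exponents of `S`-units (subspace
theorem, `Pool.Agent.TH551.SU`); it uses Cramer's rule and the rule of signs of Descartes.
-/

set_option autoImplicit false

open Polynomial Pool.Agent.H936R2 Pool.Agent.Y199.DM Pool.Agent.Y152.BD

namespace Pool.Agent.Results.MP_b15c9e_ag.SparseMembers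

open Pool.Agent.Results.MP_b15c9e_ag.CurvesThroughPreperiodicPoints (member start near)

variable {N : ℕ}

/-- The minimal polynomial of `t` over the integers has at most `s + 1` terms. -/
def SparseMinimalPolynomial (s : ℕ) (t : ℂ) : Prop :=
  ∃ P : ℤ[X], Irreducible P ∧ P.support.card ≤ s + 1 ∧ aeval t P = 0

/-- Dynamical Mordell-Lang for all but finitely many members with parameters with sparse minimal
polynomial of one-parameter families of orbits with sufficiently many étale preperiodic members. -/
theorem result {d : ℕ} (F : Fin (N + 1) → MvPolynomial (Fin (N + 1)) ℂ[X])
    (hF : ∀ i, (F i).IsHomogeneous d) (x : Fin (N + 1) → ℂ[X]) (A : Finset ℚ)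
    (hA0 : (0 : ℚ) ∉ A) (hA : ∀ α ∈ A, EtalePreperiodic (member F α) (start x α)) (s : ℕ)
    (hs : 6 * s * (s + 1) + 1 ≤ A.card) :
    {t : ℂ | SparseMinimalPolynomial s t ∧ ¬ DMLAt (member F t) (start x t)}.Finite := by
  classical
  let e : Fin A.card → ℚ := fun l => A.orderEmbOfFin rfl l
  have he : Function.Injective e := (A.orderEmbOfFin rfl).injective
  have heA : ∀ l, e l ∈ A := fun l => A.orderEmbOfFin_mem rfl l
  have he0 : ∀ l, e l ≠ 0 := fun l h => hA0 (h ▸ heA l)
  choose u huK hu using fun l => near F hF x (e l) (hA _ (heA l))
  choose D hD using fun l => emb_alg (u l)
  let D' : ℕ := ∑ l, (D l + (e l).den)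
  refine (Pool.Agent.V1138.SP.finite_badS D' s (M := A.card) (L := 1) (by omega) e he
    he0).subset ?_
  rintro t ⟨htδ, hbad⟩
  refine ⟨htδ, ?_⟩
  rintro ⟨f, -, G, hG, hGt, hp⟩
  obtain ⟨p, hp, hpD, hdvd⟩ := hp 0
  apply hbad
  have : Fact p.Prime := ⟨hp⟩
  have hle : D (f 0) + (e (f 0)).den ≤ D' :=
    Finset.single_le_sum (f := fun l => D l + (e l).den) (fun _ _ => Nat.zero_le _)
      (Finset.mem_univ (f 0))
  have hden : ¬ p ∣ (e (f 0)).den := by
    intro h
    have := Nat.le_of_dvd (e (f 0)).den_pos h
    omega
  obtain ⟨τ, hτ, hτt⟩ := hD (f 0) p (by omega) t G hG hGt (e (f 0)) hden hdvd
  exact hu (f 0) p τ hden hτ t hτt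

end Pool.Agent.Results.MP_b15c9e_ag.SparseMembers
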