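import Pool.Agent.Results.MP_b15c9e_ag.CurvesThroughPreperiodicPoints
import Pool.Agent.V1138.FZ.Ex

/-!
# MP_b15c9e_ag: Dynamical Mordell-Lang for one-parameter families of orbits with an étale preperiodic
member, with values of a rational function at roots of unity as parameters

**Families.** Let `F_{t,0}, …, F_{t,N}` be forms of degree `d` in `N + 1` variables whose
coefficients are polynomials in `t` (`member F t`), let `x_0, …, x_N` be polynomials in `t`
(`start x t`). So `F_t` is a one-parameter family of rational self-maps of `ℙ^N` (for example of
endomorphisms, for example the constant family) and `x(t)` is a rational curve of starting points.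

**Étale preperiodic points.** A point `P` of the cone is called étale preperiodic for a system of
forms `F` if all iterates `F^n(P)` are different from zero, the point `[P]` of `ℙ^N` is preperiodic
and the determinant of the matrix of the partial derivatives of the `F_i` does not vanish at
`F^n(P)` for `n ≥ n₀` (that is, `[F]` is étale at the points of the cycle).

**Parameters.** Let `f = P / Q` be a rational function, where `P` and `Q` are coprime polynomials
with integral coefficients. The parameters are the values `t = f (ζ)` of `f` at the roots of unity
`ζ` of all orders (`IsTorsionValue`), for example the numbers `2 cos (2 π ρ)`, `ρ` rational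
(`f = X + 1 / X`). These parameters are algebraic numbers of unbounded degree and of bounded
height. A rational number `α` is called admissible if `f (x) ≠ α` for all complex numbers `x` of
absolute value `1`, and `f (x) = α` for at least one `x ≠ 0`. For example for `f = X + 1 / X` the
`α` with `|α| > 2` are admissible (theorems `cheb_value` and `cheb_admissible` in
`Pool.Agent.V1138.FZ.Ex`), and for `f = X` the `α` with `|α| ≠ 0, 1`.

**Theorem.** Let `α` be an admissible rational number such that `x(α)` is étale preperiodic
for `F_α`. Then the orbit of `x(t)` under `F_t` satisfies the Dynamical Mordell-Lang conjecture for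
all but finitely many parameters `t = f (ζ)`.

One étale preperiodic member is sufficient, and the degrees of the parameters are unbounded. The
conclusion (`DMLAt`) is: all iterates of `x(t)` are defined (different from zero), and for every
set `S` of polynomials in `N + 1` variables (for closed subsets of `ℙ^N`: a set of forms) the set
of the `n` such that all members of `S` vanish at the `n`-th iterate is a finite union of
arithmetic progressions. The family `F_t` can be constant. The
starting file `CurvesThroughPreperiodicPoints` treats transcendental `t` and the `t` of degree at most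
`δ`, for which `2 δ + 1` étale preperiodic members are needed.

The proof: if `t` is `p`-adically near to `α` for an embedding of `ℂ` into the algebraic closure
of `ℚ_p`, for which all data have good reduction, then the orbit of `x(t)` has the reduction of the
orbit of `x(α)`, so it is étale at `p`, and `p`-adic interpolation applies (starting file).

**The arithmetic** (`Pool.Agent.V1138.FZ`). If `α = u / v` is admissible then for all roots of unity `ζ`
of large order the (homogenized) value at `α` of the minimal polynomial of `f (ζ)` has a prime factor
larger than a given number `D`. The polynomial `h = u Q - v P` has no zeros on the unit circle, and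
after division by its content its Mahler measure `μ` is larger than `1` (Kronecker). The resultant
of `h` and the `n`-th cyclotomic polynomial `Φ_n` has at least the size `μ ^ φ(n)` up to a constant.
Its part at the primes `p ≤ D` is bounded: if `Φ_n (β)`, `β` a zero of `h`, is divisible at a place
above `p` by more than `p` then `n` is the order of `β` modulo this divisor.
-/

set_option autoImplicit false

open Polynomial Pool.Agent.H936R2 Pool.Agent.Y199.DM Pool.Agent.Y152.BD

namespace Pool.Agent.Results.MP_b15c9e_ag.TorsionValues

open Pool.Agent.Results.MP_b15c9e_ag.CurvesThroughPreperiodicPoints (member start near)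

variable {N : ℕ}

/-- `t` is the value of `P / Q` at a root of unity. -/
def IsTorsionValue (P Q : Polynomial ℤ) (t : ℂ) : Prop :=
  ∃ ζ : ℂ, (∃ n : ℕ, 0 < n ∧ ζ ^ n = 1) ∧ Polynomial.aeval ζ Q ≠ 0 ∧
    t = Polynomial.aeval ζ P / Polynomial.aeval ζ Q

/-- `P` and `Q` have no common factor over the rational numbers. -/
def NoCommonFactor (P Q : Polynomial ℤ) : Prop :=
  IsCoprime (P.map (Int.castRingHom ℚ)) (Q.map (Int.castRingHom ℚ))

/-- `P / Q` does not take the value `α` on the unit circle, and takes it at a nonzero number. -/
def Admissible (P Q : Polynomial ℤ) (α : ℚ) : Prop :=
  (∀ x : ℂ, ‖x‖ = 1 → Polynomial.aeval x P ≠ (α : ℂ) * Polynomial.aeval x Q) ∧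
    ∃ x : ℂ, x ≠ 0 ∧ Polynomial.aeval x P = (α : ℂ) * Polynomial.aeval x Q

/-- Dynamical Mordell-Lang for all but finitely many members with values of a rational function at
roots of unity as parameters, of one-parameter families of orbits with an étale preperiodic member. -/
theorem result {d : ℕ} (F : Fin (N + 1) → MvPolynomial (Fin (N + 1)) ℂ[X])
    (hF : ∀ i, (F i).IsHomogeneous d) (x : Fin (N + 1) → ℂ[X])
    (P Q : ℤ[X]) (hPQ : NoCommonFactor P Q) (α : ℚ) (hα : Admissible P Q α) (hα1 : EtalePreperiodic (member F α) (start x α)) :
    {t : ℂ | IsTorsionValue P Q t ∧ ¬ DMLAt (member F t) (start x t)}.Finite := by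
  classical
  obtain ⟨u, huK, hu⟩ := near F hF x α hα1
  obtain ⟨D, hD⟩ := emb_alg u
  refine (Pool.Agent.V1138.FZ.finite_badF (D + α.den) (M := 1) (L := 1) le_rfl (fun _ => α) P Q
    hPQ (fun _ => hα.1) (fun _ => hα.2)).subset ?_
  rintro t ⟨htδ, hbad⟩
  refine ⟨htδ, ?_⟩
  rintro ⟨f, hf, W, hW, hWt, hp⟩
  apply hbad
  obtain ⟨p, hp, hpD, hdvd⟩ := hp 0
  have : Fact p.Prime := ⟨hp⟩
  have hden : ¬ p ∣ α.den := by
    intro h
    have := Nat.le_of_dvd α.den_pos h
    omega
  obtain ⟨τ, hτ, hτt⟩ := hD p (by omega) t W hW hWt α hden hdvd
  exact hu p τ hden hτ t hτt

end Pool.Agent.Results.MP_b15c9e_ag.TorsionValues
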