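import Pool.Agent.Results.MP_b15c9e_ag.OnePreperiodicMember
import Pool.Agent.V11285.FW

/-!
# Dynamical Mordell-Lang for ALL members of a family with one preperiodic member in windows around `α v_k`

For the families of `OnePreperiodicMember`, where all but `C (log B) ^ s` of the parameters of denominator `v ≤ B` and
numerator at most `B` are good: for all `α > 0` outside a set of Hausdorff dimension `0` and all `θ < 1` ALL integers `t`
with `|t - α b ^ k| ≤ b ^ (θ k)` are good for large `k`; for all `α > 0` outside a set of dimension at most `1 / 2` all but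
finitely many convergents `t` of `α` are good.
-/

set_option autoImplicit false

open Polynomial Pool.Agent.H936R2 Pool.Agent.Y199.DM

namespace Pool.Agent.Results.MP_b15c9e_ag.WindowsOfParameters

open Pool.Agent.Results.MP_b15c9e_ag.OnePreperiodicMember (member start)

/-- the exponent of convergence of the sequence `v` is at most `τ` -/
def ExpLe (v : ℕ → ℝ) (τ : ℝ) : Prop := ∀ t : ℝ, τ < t → Summable (fun k : ℕ => (v k) ^ (-t))

/-- The property `P` of rational numbers has no exceptions in windows and among good approximations, for most `α > 0`: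
(1) for all sequences `v ≥ 1` with exponent of convergence at most `τ`, all denominators `q_k ≤ v_k ^ c` and `θ < 1`, for
all `α > 0` outside a set of Hausdorff dimension at most `τ / (1 - θ)` and all large `k`, ALL `t = u / q_k` in lowest terms
with `|u - α v_k| ≤ v_k ^ θ` have the property (for instance all integers `t` with `|t - α v_k| ≤ v_k ^ θ`);
(2) if `τ = 0`, for instance if `v_k = b ^ k`, one set of dimension `0` serves all `θ < 1`;
(3) for all `α > 0` outside a set of dimension at most `1 / β` all but finitely many rational numbers `t = u / q` with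
`|α - t| ≤ q ^ (-β)` have the property; for `β = 2` these `t` include all convergents of `α`. -/
def AllWindows (P : ℚ → Prop) : Prop :=
  (∀ (v : ℕ → ℝ) (q : ℕ → ℕ) (τ θ c : ℝ), (∀ k, 1 ≤ v k) → 0 ≤ τ → ExpLe v τ → θ < 1 →
    (∀ k, (q k : ℝ) ≤ (v k) ^ c) →
    ∃ E : Set ℝ, dimH E ≤ ENNReal.ofReal (τ / (1 - θ)) ∧ ∀ α : ℝ, 0 < α → α ∉ E →
      ∃ k₀ : ℕ, ∀ k : ℕ, k₀ ≤ k → ∀ t : ℚ, t.den = q k → |(t.num : ℝ) - α * v k| ≤ (v k) ^ θ → P t) ∧
  (∀ (v : ℕ → ℝ) (q : ℕ → ℕ) (c : ℝ), (∀ k, 1 ≤ v k) → ExpLe v 0 → (∀ k, (q k : ℝ) ≤ (v k) ^ c) →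
    ∃ E : Set ℝ, dimH E = 0 ∧ ∀ α : ℝ, 0 < α → α ∉ E → ∀ θ : ℝ, θ < 1 →
      ∃ k₀ : ℕ, ∀ k : ℕ, k₀ ≤ k → ∀ t : ℚ, t.den = q k → |(t.num : ℝ) - α * v k| ≤ (v k) ^ θ → P t) ∧
  (∀ β : ℝ, 1 < β → ∃ E : Set ℝ, dimH E ≤ ENNReal.ofReal (1 / β) ∧ ∀ α : ℝ, 0 < α → α ∉ E →
    {t : ℚ | |α - t| ≤ (t.den : ℝ) ^ (-β) ∧ ¬ P t}.Finite)

/-- **Dynamical Mordell-Lang for all parameters in windows.** Let `F_t` be a one-parameter family of systems of `N + 1`
forms of degree `d` in `N + 1` variables and `x(t)` a family of starting points, with complex polynomials in `t` as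
coefficients, such that for one algebraic number `α` the point `x(α)` is étale preperiodic for `F_α`. The property
`DMLAt` of `F_t` and `x(t)` (the orbit of `x(t)` is defined, and its return set is a finite union of arithmetic
progressions for every closed set) has no exceptions in windows and among good approximations, for most `α`
(`AllWindows`). -/
theorem result :
    (∀ {N d : ℕ} (F : Fin (N + 1) → MvPolynomial (Fin (N + 1)) ℂ[X])
      (_ : ∀ i, (F i).IsHomogeneous d) (x : Fin (N + 1) → ℂ[X]) (α : ℂ) (_ : IsAlgebraic ℚ α)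
      (_ : EtalePreperiodic (member F α) (start x α)),
      AllWindows fun t : ℚ => DMLAt (member F t) (start x t)) ∧
    (∀ a : ℝ, 0 < a → ExpLe (fun k : ℕ => ((k : ℝ) + 1) ^ a) (1 / a)) ∧
    (∀ b : ℝ, 1 < b → ExpLe (fun k : ℕ => b ^ k) 0) := by
  refine ⟨fun {N d} F hF x α hα h => ?_, fun a ha => Pool.Agent.Y854.GM.expLe_pow a ha,
    fun b hb => Pool.Agent.Y854.GM.expLe_geom b hb⟩
  exact Pool.Agent.V11285.FW.allWindows (OnePreperiodicMember.result F hF x α hα h)

end Pool.Agent.Results.MP_b15c9e_ag.WindowsOfParameters
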